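import Pool.Agent.H84.SL.Targets

/-!
MP_70ba79_ag, board `slg_modules`, row RTF: elements of `k(u)` at the zeros of `u`.
-/

set_option autoImplicit false

namespace Pool.Agent.H70.SL

open SC Pool.Agent.H27.LV Pool.Agent.H84.SM Pool.Agent.H84.SL

namespace RTF

variable {k K : Type} [Field k] [Field K] [Algebra k K]

/-- a nonzero polynomial is a power of `X` times a polynomial which does not vanish at `0` -/
theorem split (P : Polynomial k) (hP : P ≠ 0) : ∃ (n : ℕ) (P1 : Polynomial k),
    P = Polynomial.X ^ n * P1 ∧ P1.coeff 0 ≠ 0 := by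
  obtain ⟨q, h1, h2⟩ := Polynomial.exists_eq_pow_rootMultiplicity_mul_and_not_dvd P hP 0
  refine ⟨_, q, by simpa using h1, fun h => h2 ?_⟩
  rw [map_zero, sub_zero, Polynomial.X_dvd_iff]
  exact h

theorem near (v : DV k K) (u : K) (hv : 0 < v.ord u) (P : Polynomial k) :
    ge v (v.ord u) (Polynomial.aeval u P - algebraMap k K (P.coeff 0)) := by
  have hu : ge v (v.ord u) u := ge_of_ord v
  have hu0 : ge v 0 u := hu.mono hv.le
  have hpow : ∀ n : ℕ, ge v 0 (u ^ n) := fun n => by
    induction n with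
    | zero => rw [pow_zero]; exact ge_one v
    | succ n ih =>
      rw [pow_succ]
      have := ih.mul hu0
      rwa [add_zero] at this
  have hint : ∀ Q : Polynomial k, ge v 0 (Polynomial.aeval u Q) := fun Q => by
    rw [Polynomial.aeval_eq_sum_range]
    refine ge_sum v _ _ 0 fun i _ => ?_
    rw [Algebra.smul_def]
    have := (ge_const v (Q.coeff i)).mul (hpow i)
    rwa [add_zero] at this
  have h : P = Polynomial.X * P.divX + Polynomial.C (P.coeff 0) := by
    rw [mul_comm]
    exact (Polynomial.divX_mul_X_add P).symm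
  have h2 : Polynomial.aeval u P - algebraMap k K (P.coeff 0) =
      u * Polynomial.aeval u P.divX := by
    have h3 := congrArg (Polynomial.aeval u) h
    rw [map_add, map_mul, Polynomial.aeval_X, Polynomial.aeval_C] at h3
    rw [h3]
    ring
  rw [h2]
  have := hu.mul (hint P.divX)
  rwa [add_zero] at this

end RTF

theorem pf_RTF : T_RTF := by
  intro k K _ _ _ _ _ _ _htr u hu f hf hf0
  have hu0 : u ≠ 0 := fun h => hu (h ▸ isAlgebraic_zero)
  obtain ⟨r, s, hrs⟩ := IntermediateField.mem_adjoin_simple_iff k f |>.1 hf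
  have hs : Polynomial.aeval u s ≠ 0 := fun h => hf0 (by rw [hrs, h, div_zero])
  have hr : Polynomial.aeval u r ≠ 0 := fun h => hf0 (by rw [hrs, h, zero_div])
  have hs0 : s ≠ 0 := fun h => hs (by rw [h, map_zero])
  have hr0 : r ≠ 0 := fun h => hr (by rw [h, map_zero])
  obtain ⟨a, P1, hP1, hα⟩ := RTF.split r hr0
  obtain ⟨b, Q1, hQ1, hβ⟩ := RTF.split s hs0
  have eP : Polynomial.aeval u r = u ^ a * Polynomial.aeval u P1 := by
    rw [hP1]; simp
  have eQ : Polynomial.aeval u s = u ^ b * Polynomial.aeval u Q1 := by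
    rw [hQ1]; simp
  set A := Polynomial.aeval u P1 with hA
  set B := Polynomial.aeval u Q1 with hB
  have hB0 : B ≠ 0 := fun h => hs (by rw [eQ, h, mul_zero])
  refine ⟨(a : ℤ) - b, P1.coeff 0 / Q1.coeff 0, div_ne_zero hα hβ, fun v hv => ?_⟩
  have nA : ge v (v.ord u) (A - algebraMap k K (P1.coeff 0)) := RTF.near v u hv P1
  have nB : ge v (v.ord u) (B - algebraMap k K (Q1.coeff 0)) := RTF.near v u hv Q1
  have hβK : algebraMap k K (Q1.coeff 0) ≠ 0 := (map_ne_zero _).2 hβ
  have oB : v.ord B = 0 := by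
    have h1 : B = algebraMap k K (Q1.coeff 0) + (B - algebraMap k K (Q1.coeff 0)) := by ring
    rw [h1, (v.ord_add_eq_left hβK ?_).2, v.ord_base]
    intro h
    rw [v.ord_base]
    rcases nB with h' | h'
    · exact absurd h' h
    · omega
  have iB : ge v 0 B⁻¹ := Or.inr (by
    have := v.ord_zpow B (-1)
    rw [zpow_neg_one, oB] at this
    omega)
  have key : f * u ^ (-((a : ℤ) - b)) - algebraMap k K (P1.coeff 0 / Q1.coeff 0) =
      ((A - algebraMap k K (P1.coeff 0)) - algebraMap k K (P1.coeff 0 / Q1.coeff 0) *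
        (B - algebraMap k K (Q1.coeff 0))) * B⁻¹ := by
    rw [hrs, eP, eQ, neg_sub, zpow_sub₀ hu0, zpow_natCast, zpow_natCast, map_div₀]
    have h1 : u ^ a ≠ 0 := pow_ne_zero _ hu0
    have h2 : u ^ b ≠ 0 := pow_ne_zero _ hu0
    field_simp
    ring
  rw [key]
  have h3 := (ge_const v (P1.coeff 0 / Q1.coeff 0)).mul nB
  rw [zero_add] at h3
  have h4 := (nA.sub h3).mul iB
  rwa [add_zero] at h4

end Pool.Agent.H70.SL
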