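import Pool.Agent.H20.SL.Defs2

/-!
# Module CTD (MP_bff2e5_gt): finitely branching trees with a countable downward closed set which has
uncountably many limits have no covering Lindelof family of compact open sets
-/

set_option autoImplicit false

open Topology Filter

namespace Pool.Agent.H70.SL

open Pool.Agent.H20.SL

theorem pig {α β : Type} {I : Set α} (hI : ¬ I.Countable) {D : Set β} (hD : D.Countable)
    {R : α → β → Prop} (h : ∀ t ∈ I, ∃ y ∈ D, R t y) :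
    ∃ y ∈ D, ¬ {t | t ∈ I ∧ R t y}.Countable := by
  by_contra hc
  push Not at hc
  apply hI
  have h1 : (⋃ y ∈ D, {t | t ∈ I ∧ R t y}).Countable := hD.biUnion hc
  refine h1.mono ?_
  intro t ht
  obtain ⟨y, hy, hR⟩ := h t ht
  simp only [Set.mem_iUnion]
  exact ⟨y, hy, ht, hR⟩

variable {T : Type}

theorem acc {C : Set (T → Bool)} (hC : IsLindelof C) {I : Set T} (hI : ¬ I.Countable)
    {c : T → T → Bool} (hc : ∀ t ∈ I, c t ∈ C) :
    ∃ a ∈ C, ∀ F : Finset T, ¬ {t | t ∈ I ∧ ∀ x ∈ F, c t x = a x}.Countable := by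
  by_contra hcon
  push Not at hcon
  have h0 : ∀ a : T → Bool, ∃ F : Finset T, a ∈ C →
      {t | t ∈ I ∧ ∀ x ∈ F, c t x = a x}.Countable := by
    intro a
    by_cases ha : a ∈ C
    · obtain ⟨F, hF⟩ := hcon a ha
      exact ⟨F, fun _ => hF⟩
    · exact ⟨∅, fun h => absurd h ha⟩
  choose F hF using h0
  obtain ⟨s, hs, hsC, hcov⟩ := hC.elim_nhds_subcover (fun a => {d | ∀ x ∈ F a, d x = a x}) (by
    intro a _
    apply IsOpen.mem_nhds
    · have : {d : T → Bool | ∀ x ∈ F a, d x = a x} = ⋂ x ∈ F a, {d | d x = a x} := by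
        ext d; simp
      rw [this]
      apply isOpen_biInter_finset
      intro x _
      exact (isOpen_discrete ({a x} : Set Bool)).preimage (continuous_apply (A := fun _ => Bool) x)
    · intro x _; rfl)
  apply hI
  refine (hs.biUnion (t := fun a _ => {t | t ∈ I ∧ ∀ x ∈ F a, c t x = a x})
    (fun a ha => hF a (hsC a ha))).mono ?_
  intro t ht
  have := hcov (hc t ht)
  simp only [Set.mem_iUnion] at this ⊢
  obtain ⟨a, ha, h1⟩ := this
  exact ⟨a, ha, ht, h1⟩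

variable [PartialOrder T]

theorem le_of_forall_lt_lim (h : IsTree T) (hH : Haus T) {t u : T} (ht : LimTy t)
    (hu : ∀ x, x < t → x ≤ u) : t ≤ u := by
  obtain ⟨y, ⟨hy1, hy2⟩, hy3⟩ := h.wf.has_min {y | y ≤ u ∧ ∀ x, x < t → x < y}
    ⟨u, le_rfl, fun x hx => by
      obtain ⟨x', h1, h2⟩ := ht.2 x hx
      exact h1.trans_le (hu x' h2)⟩
  have : t = y := by
    apply hH t y ht
    intro s
    constructor
    · exact fun hs => hy2 s hs
    · intro hs
      by_contra hst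
      apply hy3 s ⟨hs.le.trans hy1, ?_⟩ hs
      intro x hx
      rcases h.comp x s u (hu x hx) (hs.le.trans hy1) with h1 | h1
      · rcases h1.eq_or_lt with rfl | h1
        · exact absurd hx hst
        · exact h1
      · exact absurd (h1.trans_lt hx) hst
  rw [this]; exact hy1

/-- the limits of `D` -/
def Lam (D : Set T) : Set T := {t : T | LimTy t ∧ t ∉ D ∧ ∀ s, s < t → s ∈ D}

theorem lam_anti {D : Set T} {t u : T} (ht : t ∈ Lam D) (hu : u ∈ Lam D) (h : t ≤ u) : t = u := by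
  rcases h.eq_or_lt with h | h
  · exact h
  · exact absurd (hu.2.2 t h) ht.2.1

theorem lam_fin (h : IsTree T) {D : Set T} {c : T → Bool} (hc : CO c) :
    {u | u ∈ Lam D ∧ c u = true}.Finite := by
  obtain ⟨E, hE⟩ := hc.1
  have h1 : ∀ u : T, ∃ e, (c u = true → e ∈ E ∧ u ≤ e) := by
    intro u
    by_cases hu : c u = true
    · obtain ⟨e, he, he'⟩ := hE u hu
      exact ⟨e, fun _ => ⟨he, he'⟩⟩
    · exact ⟨u, fun h => absurd h hu⟩
  choose f hf using h1
  apply Set.Finite.of_finite_image (f := f)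
  · apply (Finset.finite_toSet E).subset
    rintro _ ⟨u, hu, rfl⟩
    exact (hf u hu.2).1
  · intro u hu w hw huw
    have h2 := (hf u hu.2).2
    have h3 := (hf w hw.2).2
    rw [huw] at h2
    rcases h.comp u w _ h2 h3 with h4 | h4
    · exact lam_anti hu.1 hw.1 h4
    · exact (lam_anti hw.1 hu.1 h4).symm

/-- the statement proved by minimality -/
def PN (D : Set T) (n : ℕ) : Prop := ∃ (C : Set (T → Bool)) (I : Set T) (c : T → T → Bool),
  IsLindelof C ∧ (∀ d ∈ C, CO d) ∧ I ⊆ Lam D ∧ ¬ I.Countable ∧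
    ∀ t ∈ I, c t ∈ C ∧ c t t = true ∧ {u | u ∈ Lam D ∧ c t u = true}.encard ≤ n

theorem exists_PN (h : IsTree T) {D : Set T} (hL : ¬ (Lam D).Countable) {C : Set (T → Bool)}
    (hC : IsLindelof C) (hCO : ∀ d ∈ C, CO d) (hcov : ∀ t, ∃ c ∈ C, c t = true) :
    ∃ n, PN D n := by
  choose c hc1 hc2 using hcov
  obtain ⟨n, _, hn⟩ := pig (R := fun t (n : ℕ) => {u | u ∈ Lam D ∧ c t u = true}.encard ≤ n) hL
    (D := Set.univ) Set.countable_univ (by
      intro t _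
      have hf := (lam_fin h (hCO (c t) (hc1 t)) (D := D))
      exact ⟨hf.toFinset.card, trivial, hf.encard_eq_coe_toFinset_card.le⟩)
  exact ⟨n, C, _, c, hC, hCO, fun t ht => ht.1, hn, fun t ht => ⟨hc1 t, hc2 t, ht.2⟩⟩

open Classical in
/-- remove the interval `(s, u]` -/
noncomputable def rem (s u : T) (c : T → Bool) : T → Bool :=
  fun x => if s < x ∧ x ≤ u then false else c x

theorem rem_cont (s u : T) : Continuous (rem s u) := by
  apply continuous_pi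
  intro x
  unfold rem
  split_ifs with hx
  · exact continuous_const
  · exact continuous_apply x

theorem rem_CO (h : IsTree T) (hH : Haus T) (s u : T) {c : T → Bool} (hc : CO c) :
    CO (rem s u c) := by
  refine ⟨?_, ?_⟩
  · obtain ⟨E, hE⟩ := hc.1
    refine ⟨E, fun x hx => hE x ?_⟩
    unfold rem at hx
    split_ifs at hx with h1
    exact hx
  · intro t ht
    obtain ⟨s1, hs1, hs1'⟩ := hc.2 t ht
    -- the interval is constant near t
    have key : ∃ s2, s2 < t ∧ ∀ x, s2 < x → x ≤ t → ((s < x ∧ x ≤ u) ↔ (s < t ∧ t ≤ u)) := by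
      by_cases htu : t ≤ u
      · by_cases hst : s < t
        · exact ⟨s, hst, fun x hx hxt => ⟨fun _ => ⟨hst, htu⟩, fun _ => ⟨hx, hxt.trans htu⟩⟩⟩
        · obtain ⟨s2, hs2⟩ := ht.1
          exact ⟨s2, hs2, fun x _ hxt => ⟨fun hx => absurd (hx.1.trans_le hxt) hst,
            fun hx => absurd hx.1 hst⟩⟩
      · have : ∃ x, x < t ∧ ¬ x ≤ u := by
          by_contra hcon
          push Not at hcon
          exact htu (le_of_forall_lt_lim h hH ht hcon)
        obtain ⟨s2, hs2, hs2'⟩ := this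
        exact ⟨s2, hs2, fun x hx _ => ⟨fun hx' => absurd (hx.le.trans hx'.2) hs2',
          fun hx' => absurd hx'.2 htu⟩⟩
    obtain ⟨s2, hs2, hs2'⟩ := key
    rcases h.comp s1 s2 t hs1.le hs2.le with h12 | h12
    · refine ⟨s2, hs2, fun x hx hxt => ?_⟩
      have h1 := hs2' x hx hxt
      have h2 := hs1' x (h12.trans_lt hx) hxt
      unfold rem
      by_cases h3 : s < t ∧ t ≤ u
      · rw [if_pos h3, if_pos (h1.2 h3)]
      · rw [if_neg h3, if_neg fun h4 => h3 (h1.1 h4), h2]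
    · refine ⟨s1, hs1, fun x hx hxt => ?_⟩
      have h1 := hs2' x (h12.trans_lt hx) hxt
      have h2 := hs1' x hx hxt
      unfold rem
      by_cases h3 : s < t ∧ t ≤ u
      · rw [if_pos h3, if_pos (h1.2 h3)]
      · rw [if_neg h3, if_neg fun h4 => h3 (h1.1 h4), h2]

/-- Step 1: minimality -/
theorem step1 (h : IsTree T) (hH : Haus T) {D : Set T} (hL : ¬ (Lam D).Countable)
    {C : Set (T → Bool)}
    (hC : IsLindelof C) (hCO : ∀ d ∈ C, CO d) (hcov : ∀ t, ∃ c ∈ C, c t = true) :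
    ∃ (C : Set (T → Bool)) (I : Set T) (c : T → T → Bool),
      IsLindelof C ∧ (∀ d ∈ C, CO d) ∧ I ⊆ Lam D ∧ ¬ I.Countable ∧
      (∀ t ∈ I, c t ∈ C ∧ c t t = true) ∧ ∀ u ∈ Lam D, {t | t ∈ I ∧ c t u = true}.Countable := by
  classical
  have hex := exists_PN h hL hC hCO hcov
  obtain ⟨C', I, c, h1, h2, h3, h4, h5⟩ := Nat.find_spec hex
  refine ⟨C', I, c, h1, h2, h3, h4, fun t ht => ⟨(h5 t ht).1, (h5 t ht).2.1⟩, ?_⟩
  intro u hu
  by_contra hunc
  obtain ⟨s, hs⟩ := hu.1.1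
  have hI' : ¬ {t | t ∈ I ∧ c t u = true ∧ t ≠ u}.Countable := by
    intro hcount
    apply hunc
    refine (hcount.union (Set.countable_singleton u)).mono ?_
    intro t ht
    by_cases htu : t = u
    · right; exact htu
    · left; exact ⟨ht.1, ht.2, htu⟩
  -- n ≥ 1
  have hn1 : ∃ k, Nat.find hex = k + 1 := by
    rcases Nat.eq_zero_or_eq_succ_pred (Nat.find hex) with h0 | h0
    · exfalso
      have hne : I.Nonempty := by
        rw [Set.nonempty_iff_ne_empty]; rintro rfl; exact h4 Set.countable_empty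
      obtain ⟨t, ht⟩ := hne
      have := (h5 t ht).2.2
      rw [h0] at this
      simp only [Nat.cast_zero, nonpos_iff_eq_zero, Set.encard_eq_zero] at this
      have h6 : t ∈ {u | u ∈ Lam D ∧ c t u = true} := ⟨h3 ht, (h5 t ht).2.1⟩
      rw [this] at h6
      exact h6
    · exact ⟨_, h0⟩
  obtain ⟨k, hk⟩ := hn1
  refine Nat.find_min hex (m := k) (by omega) ⟨rem s u '' C', {t | t ∈ I ∧ c t u = true ∧ t ≠ u},
    fun t => rem s u (c t), h1.image (rem_cont s u), ?_, fun t ht => h3 ht.1, hI', ?_⟩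
  · rintro _ ⟨d, hd, rfl⟩
    exact rem_CO h hH s u (h2 d hd)
  · intro t ht
    have htO : ¬ (s < t ∧ t ≤ u) := fun hh => ht.2.2 (lam_anti (h3 ht.1) hu hh.2)
    refine ⟨⟨c t, (h5 t ht.1).1, rfl⟩, ?_, ?_⟩
    · show rem s u (c t) t = true
      unfold rem
      rw [if_neg htO]
      exact (h5 t ht.1).2.1
    · have hsub : insert u {w | w ∈ Lam D ∧ rem s u (c t) w = true} ⊆
          {w | w ∈ Lam D ∧ c t w = true} := by
        intro w hw
        rcases hw with rfl | hw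
        · exact ⟨hu, ht.2.1⟩
        · refine ⟨hw.1, ?_⟩
          have := hw.2
          unfold rem at this
          split_ifs at this with hh
          exact this
      have hnot : u ∉ {w | w ∈ Lam D ∧ rem s u (c t) w = true} := by
        intro hw
        have := hw.2
        unfold rem at this
        rw [if_pos ⟨hs, le_rfl⟩] at this
        exact Bool.false_ne_true this
      have h6 := Set.encard_le_encard hsub
      rw [Set.encard_insert_of_notMem hnot] at h6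
      have h7 := h6.trans (h5 t ht.1).2.2
      rw [hk] at h7
      push_cast at h7
      exact (ENat.add_le_add_iff_right ENat.one_ne_top).1 h7

/-- Step 2: uniformisation -/
theorem step2 (h : IsTree T) (hH : Haus T) {D : Set T} (hD : D.Countable)
    (hL : ¬ (Lam D).Countable) {C : Set (T → Bool)}
    (hC : IsLindelof C) (hCO : ∀ d ∈ C, CO d) (hcov : ∀ t, ∃ c ∈ C, c t = true) :
    ∃ (C : Set (T → Bool)) (I : Set T) (c : T → T → Bool) (s0 : T) (m : ℕ),
      IsLindelof C ∧ (∀ d ∈ C, CO d) ∧ I ⊆ Lam D ∧ ¬ I.Countable ∧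
      (∀ t ∈ I, c t ∈ C ∧ s0 < t ∧ (∀ x, s0 < x → x ≤ t → c t x = true) ∧
        ∃ E : Finset T, E.card ≤ m ∧ ∀ x, c t x = true → ∃ e ∈ E, x ≤ e) ∧
      ∀ u ∈ Lam D, {t | t ∈ I ∧ c t u = true}.Countable := by
  obtain ⟨C, I, c, h1, h2, h3, h4, h5, h6⟩ := step1 h hH hL hC hCO hcov
  obtain ⟨s0, hs0, h7⟩ := pig h4 hD (R := fun t s => s < t ∧ ∀ x, s < x → x ≤ t → c t x = true) (by
    intro t ht
    obtain ⟨s, hs, hs'⟩ := (h2 (c t) (h5 t ht).1).2 t (h3 ht).1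
    exact ⟨s, (h3 ht).2.2 s hs, hs, fun x hx hxt => (hs' x hx hxt).trans (h5 t ht).2⟩)
  obtain ⟨m, _, h8⟩ := pig h7 (D := Set.univ) Set.countable_univ (R := fun t (m : ℕ) =>
      ∃ E : Finset T, E.card ≤ m ∧ ∀ x, c t x = true → ∃ e ∈ E, x ≤ e) (by
    intro t ht
    obtain ⟨E, hE⟩ := (h2 (c t) (h5 t ht.1).1).1
    exact ⟨E.card, trivial, E, le_rfl, hE⟩)
  exact ⟨C, _, c, s0, m, h1, h2, fun t ht => h3 ht.1.1, h8,
    fun t ht => ⟨(h5 t ht.1.1).1, ht.1.2.1, ht.1.2.2, ht.2⟩,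
    fun u hu => Set.Countable.mono (fun t (ht : _ ∧ _) => And.intro ht.1.1.1 ht.2) (h6 u hu)⟩

/-- the step of the induction -/
theorem stepk (h : IsTree T) (hH : Haus T) (hfin : ∀ t : T, {u | t ⋖ u}.Finite) {D : Set T}
    (hD : D.Countable) (hDd : ∀ a ∈ D, ∀ b, b ≤ a → b ∈ D) {C : Set (T → Bool)} {I : Set T}
    {c : T → T → Bool} {s0 v : T}
    (h1 : IsLindelof C) (h2 : ∀ d ∈ C, CO d) (h3 : I ⊆ Lam D) (h4 : ¬ I.Countable)
    (h5 : ∀ t ∈ I, c t ∈ C ∧ s0 < t ∧ (∀ x, s0 < x → x ≤ t → c t x = true))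
    (h6 : ∀ u ∈ Lam D, {t | t ∈ I ∧ c t u = true}.Countable)
    (hv : v ∈ D) (hs0v : s0 < v) (hvt : ∀ t ∈ I, v < t) :
    ∃ (z v' : T) (J : Set T), J ⊆ I ∧ ¬ J.Countable ∧ v' ∈ D ∧ v ≤ v' ∧ v < z ∧ ¬ v' ≤ z ∧
      ¬ z ≤ v' ∧ ∀ t ∈ J, v' < t ∧ c t z = true := by
  classical
  obtain ⟨a, haC, hacc⟩ := acc h1 h4 (fun t ht => (h5 t ht).1)
  have haL : ∀ u ∈ Lam D, a u = false := by
    intro u hu
    by_contra hau
    have hau' : a u = true := by simpa using hau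
    apply hacc {u}
    refine (h6 u hu).mono ?_
    intro t ht
    exact ⟨ht.1, (ht.2 u (by simp)).trans hau'⟩
  set Z : Set T := {w | w ∈ D ∧ v ≤ w ∧
    ∀ F : Finset T, ¬ {t | t ∈ I ∧ w < t ∧ ∀ x ∈ F, c t x = a x}.Countable} with hZ
  have hvZ : v ∈ Z := by
    refine ⟨hv, le_rfl, fun F hF => hacc F (hF.mono ?_)⟩
    intro t ht
    exact ⟨ht.1, hvt t ht.1, ht.2⟩
  have haZ : ∀ w ∈ Z, a w = true := by
    intro w hw
    have hne : {t | t ∈ I ∧ w < t ∧ ∀ x ∈ ({w} : Finset T), c t x = a x}.Nonempty := by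
      rw [Set.nonempty_iff_ne_empty]
      intro he
      apply hw.2.2 {w}
      rw [he]; exact Set.countable_empty
    obtain ⟨t, ht, hwt, hF⟩ := hne
    rw [← hF w (by simp)]
    exact (h5 t ht).2.2 w (hs0v.trans_le hw.2.1) hwt.le
  have hcover : ∀ w ∈ Z, ∃ w' ∈ Z, w < w' := by
    intro w hw
    by_contra hcon
    push Not at hcon
    have h7 : ∀ w' : T, ∃ F : Finset T, w ⋖ w' → w' ∈ D →
        {t | t ∈ I ∧ w' < t ∧ ∀ x ∈ F, c t x = a x}.Countable := by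
      intro w'
      by_cases hww : w ⋖ w' ∧ w' ∈ D
      · by_contra hcc
        push Not at hcc
        refine hcon w' ⟨hww.2, hw.2.1.trans hww.1.1.le, fun F => ?_⟩ hww.1.1
        exact (hcc F).2.2
      · exact ⟨∅, fun h8 h9 => absurd ⟨h8, h9⟩ hww⟩
    choose F hF using h7
    have hcf := hfin w
    apply hw.2.2 (hcf.toFinset.biUnion F)
    have h8 : (⋃ w' ∈ {u | w ⋖ u}, {t | (t ∈ I ∧ w' < t ∧ ∀ x ∈ F w', c t x = a x) ∧
        w' ∈ D}).Countable := by
      apply hcf.countable.biUnion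
      intro w' hw'
      by_cases hwD : w' ∈ D
      · exact (hF w' hw' hwD).mono fun t ht => ht.1
      · refine Set.Countable.mono ?_ Set.countable_empty
        intro t ht
        exact absurd ht.2 hwD
    refine h8.mono ?_
    rintro t ⟨ht, hwt, hFt⟩
    obtain ⟨u, hu1, hu2⟩ := exists_covBy h hwt
    have hut : u < t := by
      rcases hu2.eq_or_lt with rfl | hu2
      · obtain ⟨s', hs', hs''⟩ := (h3 ht).1.2 w hwt
        exact absurd hs'' (hu1.2 hs')
      · exact hu2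
    simp only [Set.mem_iUnion]
    refine ⟨u, hu1, ⟨ht, hut, fun x hx => hFt x ?_⟩, (h3 ht).2.2 u hut⟩
    rw [Finset.mem_biUnion]
    exact ⟨u, by simpa using hu1, hx⟩
  obtain ⟨⟨E, hE⟩, hlim⟩ := h2 a haC
  -- an element of `E` without maximum
  have hexe : ∃ e ∈ E, (∃ w ∈ Z, w ≤ e) ∧ ∀ w ∈ Z, w ≤ e → ∃ w' ∈ Z, w' ≤ e ∧ ¬ w' ≤ w := by
    by_contra hcon
    push Not at hcon
    have h7 : ∀ e : T, ∃ m, e ∈ E → (∃ w ∈ Z, w ≤ e) →
        m ∈ Z ∧ m ≤ e ∧ ∀ w ∈ Z, w ≤ e → w ≤ m := by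
      intro e
      by_cases he : e ∈ E ∧ ∃ w ∈ Z, w ≤ e
      · obtain ⟨w0, hw0, hw0e⟩ := he.2
        obtain ⟨m, hm1, hm2, hm3⟩ := hcon e he.1 ⟨w0, hw0, hw0e⟩
        exact ⟨m, fun _ _ => ⟨hm1, hm2, hm3⟩⟩
      · exact ⟨e, fun h8 h9 => absurd ⟨h8, h9⟩ he⟩
    choose m hm using h7
    obtain ⟨e0, he0, hve0⟩ := hE v (haZ v hvZ)
    obtain ⟨p, hp⟩ := Set.Finite.exists_maximal
      (s := m '' {e | e ∈ E ∧ ∃ w ∈ Z, w ≤ e})
      (((Finset.finite_toSet E).subset fun e he => he.1).image m)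
      ⟨m e0, e0, ⟨he0, v, hvZ, hve0⟩, rfl⟩
    obtain ⟨⟨e1, ⟨he1, hw1⟩, rfl⟩, hp2⟩ := hp
    obtain ⟨w', hw', hlt⟩ := hcover (m e1) (hm e1 he1 hw1).1
    obtain ⟨e2, he2, hwe2⟩ := hE w' (haZ w' hw')
    have h8 := hm e2 he2 ⟨w', hw', hwe2⟩
    have h9 := h8.2.2 w' hw' hwe2
    have h10 := hp2 ⟨e2, ⟨he2, w', hw', hwe2⟩, rfl⟩ (hlt.le.trans h9)
    exact absurd (hlt.trans_le (h9.trans h10)) (lt_irrefl _)
  obtain ⟨e, heE, ⟨w0, hw0, hw0e⟩, hnomax⟩ := hexe
  have hnm : ∀ w ∈ Z, w ≤ e → ∃ w' ∈ Z, w' ≤ e ∧ w < w' := by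
    intro w hw hwe
    obtain ⟨w', hw', hwe', hn⟩ := hnomax w hw hwe
    refine ⟨w', hw', hwe', ?_⟩
    rcases h.comp w w' e hwe hwe' with h8 | h8
    · exact lt_of_le_of_ne h8 fun he => hn he.ge
    · exact absurd h8 hn
  obtain ⟨z, ⟨hze, hzZ⟩, hzmin⟩ := h.wf.has_min {y | y ≤ e ∧ ∀ w ∈ Z, w ≤ e → w < y}
    ⟨e, le_rfl, fun w hw hwe => by
      obtain ⟨w', _, hwe', hlt⟩ := hnm w hw hwe
      exact hlt.trans_le hwe'⟩
  have hzlt : ∀ s, s < z → ∃ w ∈ Z, s < w ∧ w < z := by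
    intro s hs
    have hse : s ≤ e := hs.le.trans hze
    have h8 : ∃ w ∈ Z, w ≤ e ∧ s ≤ w := by
      by_contra hcon
      push Not at hcon
      apply hzmin s ⟨hse, ?_⟩ hs
      intro w hw hwe
      rcases h.comp s w e hse hwe with h9 | h9
      · exact absurd h9 (hcon w hw hwe)
      · exact lt_of_le_of_ne h9 fun he => hcon w hw hwe he.ge
    obtain ⟨w, hw, hwe, hsw⟩ := h8
    obtain ⟨w', hw', hwe', hlt⟩ := hnm w hw hwe
    exact ⟨w', hw', hsw.trans_lt hlt, hzZ w' hw' hwe'⟩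
  have hzlim : LimTy z := by
    refine ⟨⟨w0, hzZ w0 hw0 hw0e⟩, fun s hs => ?_⟩
    obtain ⟨w, _, h8, h9⟩ := hzlt s hs
    exact ⟨w, h8, h9⟩
  have haz : a z = true := by
    obtain ⟨s, hs, hs'⟩ := hlim z hzlim
    obtain ⟨w, hw, h8, h9⟩ := hzlt s hs
    rw [← hs' w h8 h9.le]
    exact haZ w hw
  have hzD : z ∈ D := by
    by_contra hzD
    have : z ∈ Lam D := by
      refine ⟨hzlim, hzD, fun s hs => ?_⟩
      obtain ⟨w, hw, h8, _⟩ := hzlt s hs
      exact hDd w hw.1 s h8.le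
    rw [haL z this] at haz
    exact Bool.false_ne_true haz
  have hvz : v < z := (hw0.2.1).trans_lt (hzZ w0 hw0 hw0e)
  have hznZ : z ∉ Z := fun hz => lt_irrefl z (hzZ z hz hze)
  have hexF : ∃ F : Finset T, {t | t ∈ I ∧ z < t ∧ ∀ x ∈ F, c t x = a x}.Countable := by
    by_contra hcon
    push Not at hcon
    exact hznZ ⟨hzD, hvz.le, hcon⟩
  obtain ⟨F, hF⟩ := hexF
  have hJ : ¬ {t | t ∈ I ∧ c t z = true ∧ ¬ z < t}.Countable := by
    intro hc
    apply hacc (insert z F)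
    refine (hc.union hF).mono ?_
    rintro t ⟨ht, hF'⟩
    by_cases hzt : z < t
    · right
      exact ⟨ht, hzt, fun x hx => hF' x (Finset.mem_insert_of_mem hx)⟩
    · left
      exact ⟨ht, (hF' z (Finset.mem_insert_self z F)).trans haz, hzt⟩
  obtain ⟨v', hv'D, hK⟩ := pig hJ hD (R := fun t x => x < t ∧ ¬ x ≤ z) (by
    rintro t ⟨ht, _, hzt⟩
    have h8 : ¬ t ≤ z := fun h9 => (h3 ht).2.1 (hDd z hzD t h9)
    have h9 : ∃ x, x < t ∧ ¬ x ≤ z := by
      by_contra hcon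
      push Not at hcon
      exact h8 (le_of_forall_lt_lim h hH (h3 ht).1 hcon)
    obtain ⟨x, hx, hxz⟩ := h9
    exact ⟨x, (h3 ht).2.2 x hx, hx, hxz⟩)
  have hne : {t | t ∈ {t | t ∈ I ∧ c t z = true ∧ ¬ z < t} ∧ v' < t ∧ ¬ v' ≤ z}.Nonempty := by
    rw [Set.nonempty_iff_ne_empty]
    intro he
    apply hK
    rw [he]; exact Set.countable_empty
  obtain ⟨t0, ⟨ht0, _, hzt0⟩, hvt0, hvz0⟩ := hne
  refine ⟨z, v', _, fun t ht => ht.1.1, hK, hv'D, ?_, hvz, hvz0, ?_, fun t ht =>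
    ⟨ht.2.1, ht.1.2.1⟩⟩
  · rcases h.comp v v' t0 (hvt t0 ht0).le hvt0.le with h8 | h8
    · exact h8
    · exact absurd (h8.trans hvz.le) hvz0
  · intro h8
    exact hzt0 (h8.trans_lt hvt0)

theorem ctd : T_CTD := by
  classical
  intro T _ h hH hfin D hD hDd hL C hC hCO hcov
  obtain ⟨C, I, c, s0, m, h1, h2, h3, h4, h5, h6⟩ := step2 h hH hD hL hC hCO hcov
  have hind : ∀ k : ℕ, ∃ (J : Set T) (v : T) (Z : Finset T), J ⊆ I ∧ ¬ J.Countable ∧ v ∈ D ∧
      s0 < v ∧ (∀ t ∈ J, v < t) ∧ Z.card = k ∧ (∀ z ∈ Z, ∀ t ∈ J, c t z = true) ∧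
      (∀ z ∈ Z, ¬ v ≤ z ∧ ¬ z ≤ v) ∧ ∀ z ∈ Z, ∀ z' ∈ Z, z ≠ z' → ∀ p, z ≤ p → ¬ z' ≤ p := by
    intro k
    induction k with
    | zero =>
      obtain ⟨v, hv, hJ⟩ := pig h4 hD (R := fun t v => s0 < v ∧ v < t) (by
        intro t ht
        obtain ⟨s', hs', hs''⟩ := (h3 ht).1.2 s0 (h5 t ht).2.1
        exact ⟨s', (h3 ht).2.2 s' hs'', hs', hs''⟩)
      have hne : {t | t ∈ I ∧ s0 < v ∧ v < t}.Nonempty := by
        rw [Set.nonempty_iff_ne_empty]
        intro he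
        apply hJ
        rw [he]; exact Set.countable_empty
      obtain ⟨t0, _, hs0v, _⟩ := hne
      exact ⟨_, v, ∅, fun t ht => ht.1, hJ, hv, hs0v, fun t ht => ht.2.2, by simp, by simp,
        by simp, by simp⟩
    | succ k ih =>
      obtain ⟨J, v, Z, hJI, hJ, hv, hs0v, hvt, hcard, hcZ, hvZ, hZZ⟩ := ih
      obtain ⟨z, v', K, hKJ, hK, hv', hvv', hvz, hv'z, hzv', hK'⟩ := stepk h hH hfin hD hDd h1 h2
        (hJI.trans h3) hJ (fun t ht => ⟨(h5 t (hJI ht)).1, (h5 t (hJI ht)).2.1,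
          (h5 t (hJI ht)).2.2.1⟩)
        (fun u hu => Set.Countable.mono (fun t (ht : _ ∧ _) => And.intro (hJI ht.1) ht.2)
          (h6 u hu)) hv hs0v hvt
      have hnub : ∀ y ∈ Z, ∀ p, y ≤ p → ¬ z ≤ p := by
        intro y hy p hyp hzp
        rcases h.comp y v p hyp (hvz.le.trans hzp) with h8 | h8
        · exact (hvZ y hy).2 h8
        · exact (hvZ y hy).1 h8
      have hzZ : z ∉ Z := fun hz => (hvZ z hz).1 hvz.le
      refine ⟨K, v', insert z Z, hKJ.trans hJI, hK, hv', hs0v.trans_le hvv',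
        fun t ht => (hK' t ht).1, by rw [Finset.card_insert_of_notMem hzZ, hcard], ?_, ?_, ?_⟩
      · intro y hy t ht
        rcases Finset.mem_insert.1 hy with rfl | hy
        · exact (hK' t ht).2
        · exact hcZ y hy t (hKJ ht)
      · intro y hy
        rcases Finset.mem_insert.1 hy with rfl | hy
        · exact ⟨hv'z, hzv'⟩
        · refine ⟨fun h8 => (hvZ y hy).1 (hvv'.trans h8), fun h8 => ?_⟩
          rcases h.comp y v v' h8 hvv' with h9 | h9
          · exact (hvZ y hy).2 h9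
          · exact (hvZ y hy).1 h9
      · intro y hy y' hy' hne p hyp hyp'
        rcases Finset.mem_insert.1 hy with h8 | h8
        · rcases Finset.mem_insert.1 hy' with h9 | h9
          · exact hne (h8.trans h9.symm)
          · exact hnub y' h9 p hyp' (h8 ▸ hyp)
        · rcases Finset.mem_insert.1 hy' with h9 | h9
          · exact hnub y h8 p hyp (h9 ▸ hyp')
          · exact hZZ y h8 y' h9 hne p hyp hyp'
  obtain ⟨J, v, Z, hJI, hJ, hv, hs0v, hvt, hcard, hcZ, hvZ, hZZ⟩ := hind (m + 1)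
  have hne : J.Nonempty := by
    rw [Set.nonempty_iff_ne_empty]; rintro rfl; exact hJ Set.countable_empty
  obtain ⟨t, ht⟩ := hne
  obtain ⟨E, hEm, hE⟩ := (h5 t (hJI ht)).2.2.2
  have h7 : ∀ x : T, ∃ e, c t x = true → e ∈ E ∧ x ≤ e := by
    intro x
    by_cases hx : c t x = true
    · obtain ⟨e, he, hxe⟩ := hE x hx
      exact ⟨e, fun _ => ⟨he, hxe⟩⟩
    · exact ⟨x, fun h8 => absurd h8 hx⟩
  choose f hf using h7
  obtain ⟨y, hy, y', hy', hyy, hff⟩ := Finset.exists_ne_map_eq_of_card_lt_of_maps_to (s := Z)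
    (t := E) (f := f) (by omega) (fun x hx => (hf x (hcZ x hx t ht)).1)
  have h8 := (hf y (hcZ y hy t ht)).2
  have h9 := (hf y' (hcZ y' hy' t ht)).2
  rw [← hff] at h9
  exact hZZ y hy y' hy' hyy _ h8 h9

end Pool.Agent.H70.SL
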