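import Pool.Agent.H84.SL.Targets
import Pool.Agent.H70.SL.RTF

/-!
MP_70ba79_ag, board `slg_modules`, row BAD: adapted bases exist.
-/

set_option autoImplicit false

namespace Pool.Agent.H70.SL

open SC Pool.Agent.H27.LV Pool.Agent.H84.SM Pool.Agent.H84.SL

namespace BAD

variable {k K : Type} [Field k] [Field K] [Algebra k K]

lemma pol_zero {t : K} {v : DV k K} (h : 0 ≤ v.ord t) : pol k t v = 0 := by
  unfold pol
  omega

lemma pol_neg {t : K} {v : DV k K} (h : v.ord t < 0) : pol k t v = -(v.ord t) := by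
  unfold pol
  omega

lemma ge_pow {v : DV k K} {x : K} {s : ℤ} (h : ge v s x) (n : ℕ) : ge v (n * s) (x ^ n) := by
  induction n with
  | zero => simpa using ge_one v
  | succ n ih =>
    rw [pow_succ]
    exact (ih.mul h).mono (by push_cast; linarith)

lemma ge_inv {v : DV k K} {x : K} : ge v (-(v.ord x)) x⁻¹ := Or.inr (by
  have := v.ord_zpow x (-1)
  rw [zpow_neg_one] at this
  omega)

lemma mem_LE_iff (r : ℤ) (t z : K) :
    z ∈ LE k (fun v : DV k K => r * pol k t v) ↔ (∀ v : DV k K, 0 ≤ v.ord t → ge v 0 z) ∧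
      ∀ v : DV k K, v.ord t < 0 → ge v (r * v.ord t) z := by
  constructor
  · intro h
    refine ⟨fun v hv => ?_, fun v hv => ?_⟩
    · have := h v
      simp only [pol_zero hv, mul_zero, neg_zero] at this
      exact this
    · have := h v
      simp only [pol_neg hv] at this
      exact this.mono (by ring_nf; rfl)
  · rintro ⟨h1, h2⟩ v
    by_cases hv : 0 ≤ v.ord t
    · simp only [pol_zero hv, mul_zero, neg_zero]
      exact h1 v hv
    · push Not at hv
      simp only [pol_neg hv]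
      exact (h2 v hv).mono (by ring_nf; rfl)

/-- replacing one vector of a basis -/
lemma replace {F : IntermediateField k K} {n : ℕ} (b : Module.Basis (Fin n) F K) (g : Fin n → F)
    (j0 : Fin n) (hg : g j0 ≠ 0) :
    ∃ b' : Module.Basis (Fin n) F K, b' j0 = ∑ j, g j • b j ∧ ∀ j, j ≠ j0 → b' j = b j := by
  classical
  obtain ⟨f, hf⟩ : ∃ f : Fin n → K, f = Function.update b j0 (∑ j, g j • b j) := ⟨_, rfl⟩
  have hf0 : f j0 = ∑ j, g j • b j := by rw [hf, Function.update_self]
  have hf1 : ∀ j, j ≠ j0 → f j = b j := fun j hj => by rw [hf, Function.update_of_ne hj]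
  have hli : LinearIndependent F f := by
    rw [Fintype.linearIndependent_iff]
    intro s hs
    have h1 : ∑ i, s i • f i = ∑ i, ((if i = j0 then 0 else s i) + s j0 * g i) • b i := by
      have h2 : ∑ i, s i • f i = ∑ i, (if i = j0 then 0 else s i) • b i + s j0 • f j0 := by
        have h3 : ∀ i, s i • f i = (if i = j0 then 0 else s i) • b i +
            (if i = j0 then s j0 • f j0 else 0) := by
          intro i
          by_cases hi : i = j0
          · subst hi; simp
          · simp [hi, hf1 i hi]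
        rw [Finset.sum_congr rfl fun i _ => h3 i, Finset.sum_add_distrib]
        congr 1
        simp
      rw [h2, hf0, Finset.smul_sum, ← Finset.sum_add_distrib]
      refine Finset.sum_congr rfl fun i _ => ?_
      rw [add_smul, mul_smul]
    rw [h1] at hs
    have h4 := Fintype.linearIndependent_iff.1 b.linearIndependent _ hs
    have h5 : s j0 = 0 := by
      have := h4 j0
      simp only [if_true, zero_add] at this
      exact (mul_eq_zero.1 this).resolve_right hg
    intro i
    by_cases hi : i = j0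
    · rw [hi, h5]
    · have := h4 i
      simpa [hi, h5] using this
  have hcard : Fintype.card (Fin n) = Module.finrank F K := by
    rw [Module.finrank_eq_card_basis b]
  have hne : Nonempty (Fin n) := ⟨j0⟩
  refine ⟨basisOfLinearIndependentOfCardEqFinrank hli hcard, ?_, fun j hj => ?_⟩
  · rw [coe_basisOfLinearIndependentOfCardEqFinrank, hf0]
  · rw [coe_basisOfLinearIndependentOfCardEqFinrank, hf1 j hj]

lemma ge_zpow {v : DV k K} (u : K) (n : ℤ) : ge v (n * v.ord u) (u ^ n) :=
  Or.inr (by rw [v.ord_zpow])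

lemma unit_of_near {v : DV k K} {x : K} {a : k} {s : ℤ} (hs : 0 < s) (ha : a ≠ 0)
    (h : ge v s (x - algebraMap k K a)) : x ≠ 0 ∧ v.ord x = 0 := by
  have haK : algebraMap k K a ≠ 0 := (map_ne_zero _).2 ha
  have h1 : x = algebraMap k K a + (x - algebraMap k K a) := by ring
  have h2 := v.ord_add_eq_left (x := algebraMap k K a) (y := x - algebraMap k K a) haK (by
    intro h3
    rw [v.ord_base]
    rcases h with h' | h'
    · exact absurd h' h3
    · omega)
  rw [← h1, v.ord_base] at h2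
  exact h2

/-- leading coefficients at the zeros of `u` -/
lemma lead [IsAlgClosed k] [CharZero k] [Algebra.EssFiniteType k K]
    (htr : Algebra.trdeg k K = 1) (u : K) (hu : Transcendental k u) {n : ℕ} (c : Fin n → K)
    (hc : ∀ j, c j ∈ IntermediateField.adjoin k {u}) (j1 : Fin n) (v1 : DV k K)
    (hv1 : 0 < v1.ord u) (h0 : c j1 ≠ 0) (hneg : v1.ord (c j1) < 0) :
    ∃ (m : ℕ) (a : Fin n → k), 1 ≤ m ∧ (∃ j, a j ≠ 0) ∧ ∀ v : DV k K, 0 < v.ord u → ∀ j,
      ge v (v.ord u) (c j * u ^ m - algebraMap k K (a j)) := by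
  classical
  have hu0 : u ≠ 0 := fun h => hu (h ▸ isAlgebraic_zero)
  have hex : ∀ j, ∃ (o : ℤ) (α : k), c j ≠ 0 → (α ≠ 0 ∧ ∀ v : DV k K, 0 < v.ord u →
      ge v (v.ord u) (c j * u ^ (-o) - algebraMap k K α)) := fun j => by
    by_cases h : c j = 0
    · exact ⟨0, 0, fun h' => absurd h h'⟩
    · obtain ⟨o, α, h1, h2⟩ := pf_RTF k K htr u hu (c j) (hc j) h
      exact ⟨o, α, fun _ => ⟨h1, h2⟩⟩
  choose o α hα using hex
  obtain ⟨j2, hj2, hmax⟩ := Finset.exists_max_image (Finset.univ.filter fun j => c j ≠ 0)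
    (fun j => -(o j)) ⟨j1, by simp [h0]⟩
  have hj2' : c j2 ≠ 0 := (Finset.mem_filter.1 hj2).2
  have ho1 : o j1 < 0 := by
    obtain ⟨h1, h2⟩ := unit_of_near hv1 (hα j1 h0).1 ((hα j1 h0).2 v1 hv1)
    rw [v1.ord_mul' h0 (zpow_ne_zero _ hu0), v1.ord_zpow] at h2
    by_contra hcon
    push Not at hcon
    have : 0 ≤ o j1 * v1.ord u := mul_nonneg hcon hv1.le
    have h3 : -(o j1) * v1.ord u = -(o j1 * v1.ord u) := by ring
    omega
  have ho2 : 1 ≤ -(o j2) := by
    have := hmax j1 (by simp [h0])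
    omega
  obtain ⟨m, hm⟩ : ∃ m : ℕ, (m : ℤ) = -(o j2) := ⟨(-(o j2)).toNat, by omega⟩
  refine ⟨m, fun j => if c j ≠ 0 ∧ o j = o j2 then α j else 0, by omega, ⟨j2, ?_⟩, ?_⟩
  · simp only [hj2', ne_eq, not_false_eq_true, and_self, if_true]
    exact (hα j2 hj2').1
  · intro v hv j
    by_cases h : c j = 0
    · simp only [h, ne_eq, not_true_eq_false, false_and, if_false, map_zero, zero_mul, sub_zero]
      exact ge_zero v _
    have hle : -(o j) ≤ -(o j2) := hmax j (by simp [h])
    have hnear := (hα j h).2 v hv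
    by_cases h' : o j = o j2
    · simp only [ne_eq, h, not_false_eq_true, h', and_self, if_true]
      rw [h', ← hm, zpow_natCast] at hnear
      exact hnear
    · simp only [ne_eq, h, not_false_eq_true, h', and_false, if_false, map_zero, sub_zero]
      have e1 : c j * u ^ m = (c j * u ^ (-(o j))) * u ^ ((m : ℤ) + o j) := by
        rw [mul_assoc, ← zpow_add₀ hu0, ← zpow_natCast]
        congr 2
        ring
      have h1 : ge v 0 (c j * u ^ (-(o j))) := by
        have h2 := (hnear.mono hv.le).add (ge_const v (α j))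
        rwa [sub_add_cancel] at h2
      rw [e1]
      refine (h1.mul (ge_zpow u _)).mono ?_
      have h3 : 1 ≤ (m : ℤ) + o j := by omega
      nlinarith

section Min

variable {t : K} {n : ℕ} (b : Module.Basis (Fin n) (IntermediateField.adjoin k {t}) K)
  (r : Fin n → ℕ)

/-- the exchange argument -/
lemma exch [IsAlgClosed k] [CharZero k] [Algebra.EssFiniteType k K]
    (htr : Algebra.trdeg k K = 1) (ht : Transcendental k t)
    (hb : ∀ j, b j ∈ LE k (fun v : DV k K => (r j : ℤ) * pol k t v))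
    (hmin : ∀ (b' : Module.Basis (Fin n) (IntermediateField.adjoin k {t}) K) (r' : Fin n → ℕ),
      (∀ j, b' j ∈ LE k (fun v : DV k K => (r' j : ℤ) * pol k t v)) → ∑ j, r j ≤ ∑ j, r' j)
    (g : Fin n → IntermediateField.adjoin k {t}) (j0 : Fin n) (hg : g j0 ≠ 0)
    (hw : ∑ j, g j • b j ∈ LE k (fun v : DV k K => ((r j0 : ℤ) - 1) * pol k t v)) : False := by
  classical
  by_cases hr : r j0 = 0
  · obtain ⟨w, hwe⟩ : ∃ w, w = ∑ j, g j • b j := ⟨_, rfl⟩
    rw [← hwe, hr] at hw
    obtain ⟨h1, h2⟩ := (mem_LE_iff _ _ _).1 hw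
    have hw0 : w ≠ 0 := by
      intro h
      rw [hwe] at h
      exact hg (Fintype.linearIndependent_iff.1 b.linearIndependent g h j0)
    have hfd := Pool.Agent.H36.SC.fin_of_transc htr ht
    obtain ⟨h5a, -, h5c⟩ := Pool.Agent.H76.KN.v5 k K t ht hfd
    have hv0 : ∃ v0 : DV k K, v0.ord t < 0 := by
      by_contra hcon
      push Not at hcon
      have h3 : ∀ v : DV k K, (v.deg : ℤ) * max 0 (-(v.ord t)) = 0 := fun v => by
        have := hcon v
        have h4 : max 0 (-(v.ord t)) = 0 := by omega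
        rw [h4, mul_zero]
      rw [finsum_congr h3, finsum_zero] at h5c
      have h6 : 0 < Module.finrank (IntermediateField.adjoin k {t}) K := Module.finrank_pos
      omega
    obtain ⟨v0, hv0⟩ := hv0
    obtain ⟨p1, p2⟩ := pfm k K htr w
    have hnn : ∀ v : DV k K, 0 ≤ v.ord w := fun v => by
      by_cases hv : 0 ≤ v.ord t
      · exact (h1 v hv).resolve_left hw0
      · push Not at hv
        have := (h2 v hv).resolve_left hw0
        push_cast at this
        linarith
    have hpos : 0 < v0.ord w := by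
      have := (h2 v0 hv0).resolve_left hw0
      push_cast at this
      linarith
    rw [finsum_eq_sum_of_support_subset (s := p1.toFinset) _ (by
      intro v hv
      simpa using hv)] at p2
    have h7 : 0 < ∑ v ∈ p1.toFinset, v.ord w :=
      Finset.sum_pos' (fun v _ => hnn v) ⟨v0, p1.mem_toFinset.2 hpos.ne', hpos⟩
    omega
  · obtain ⟨b', h1, h2⟩ := replace b g j0 hg
    have h3 := hmin b' (Function.update r j0 (r j0 - 1)) fun j => by
      by_cases hj : j = j0
      · subst hj
        rw [Function.update_self, h1]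
        have : ((r j - 1 : ℕ) : ℤ) = (r j : ℤ) - 1 := by omega
        rw [this]
        exact hw
      · rw [Function.update_of_ne hj, h2 j hj]
        exact hb j
    rw [Finset.sum_update_of_mem (Finset.mem_univ j0)] at h3
    have h4 := Finset.sum_erase_add Finset.univ r (Finset.mem_univ j0)
    rw [← Finset.sdiff_singleton_eq_erase] at h4
    omega

/-- CLAIM 1 -/
lemma c1 [IsAlgClosed k] [CharZero k] [Algebra.EssFiniteType k K]
    (htr : Algebra.trdeg k K = 1) (ht : Transcendental k t)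
    (hb : ∀ j, b j ∈ LE k (fun v : DV k K => (r j : ℤ) * pol k t v))
    (hmin : ∀ (b' : Module.Basis (Fin n) (IntermediateField.adjoin k {t}) K) (r' : Fin n → ℕ),
      (∀ j, b' j ∈ LE k (fun v : DV k K => (r' j : ℤ) * pol k t v)) → ∑ j, r j ≤ ∑ j, r' j)
    (a : Fin n → k) (ha : ∃ j, a j ≠ 0)
    (hS : ∀ v : DV k K, v.ord t < 0 →
      ge v (-(v.ord t)) (∑ j, algebraMap k K (a j) * (b j * (t ^ r j)⁻¹))) : False := by
  classical
  have ht0 : t ≠ 0 := fun h => ht (h ▸ isAlgebraic_zero)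
  obtain ⟨j1, hj1⟩ := ha
  obtain ⟨j0, hj0, hmax⟩ := Finset.exists_max_image (Finset.univ.filter fun j => a j ≠ 0) r
    ⟨j1, by simp [hj1]⟩
  have ha0 : a j0 ≠ 0 := (Finset.mem_filter.1 hj0).2
  obtain ⟨tF, htF⟩ : ∃ tF : IntermediateField.adjoin k {t}, (tF : K) = t :=
    ⟨⟨t, IntermediateField.mem_adjoin_simple_self k t⟩, rfl⟩
  have htF0 : tF ≠ 0 := fun h => ht0 (by rw [← htF, h]; rfl)
  obtain ⟨g, hg⟩ : ∃ g : Fin n → IntermediateField.adjoin k {t}, ∀ j, g j =
    algebraMap k _ (a j) * tF ^ r j0 * (tF ^ r j)⁻¹ := ⟨_, fun _ => rfl⟩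
  have hgK : ∀ j, (g j : K) = algebraMap k K (a j) * t ^ r j0 * (t ^ r j)⁻¹ := fun j => by
    rw [hg]
    push_cast
    rw [htF]
  have hsum : ∑ j, g j • b j =
      t ^ r j0 * ∑ j, algebraMap k K (a j) * (b j * (t ^ r j)⁻¹) := by
    rw [Finset.mul_sum]
    refine Finset.sum_congr rfl fun j _ => ?_
    rw [IntermediateField.smul_def, smul_eq_mul, hgK]
    ring
  refine exch b r htr ht hb hmin g j0 ?_ ?_
  · rw [hg]
    exact mul_ne_zero (mul_ne_zero ((map_ne_zero _).2 ha0) (pow_ne_zero _ htF0))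
      (inv_ne_zero (pow_ne_zero _ htF0))
  · rw [mem_LE_iff]
    refine ⟨fun v hv => ?_, fun v hv => ?_⟩
    · refine ge_sum v _ _ 0 fun j _ => ?_
      rw [IntermediateField.smul_def, smul_eq_mul, hgK]
      by_cases h : a j = 0
      · rw [h, map_zero, zero_mul, zero_mul, zero_mul]
        exact ge_zero v 0
      · have hle : r j ≤ r j0 := hmax j (by simp [h])
        rw [mul_assoc (algebraMap k K (a j)), ← pow_sub₀ t ht0 hle]
        have h1 : ge v 0 (t ^ (r j0 - r j)) :=
          (ge_pow (ge_of_ord v) _).mono (mul_nonneg (by positivity) hv)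
        have h2 := ((ge_const v (a j)).mul h1).mul (((mem_LE_iff _ _ _).1 (hb j)).1 v hv)
        simpa using h2
    · rw [hsum]
      have h1 : ge v (r j0 * v.ord t) (t ^ r j0) := ge_pow (ge_of_ord v) _
      refine (h1.mul (hS v hv)).mono (le_of_eq ?_)
      ring

/-- CLAIM 2 -/
lemma c2 [IsAlgClosed k] [CharZero k] [Algebra.EssFiniteType k K]
    (htr : Algebra.trdeg k K = 1) (ht : Transcendental k t)
    (hb : ∀ j, b j ∈ LE k (fun v : DV k K => (r j : ℤ) * pol k t v))
    (hmin : ∀ (b' : Module.Basis (Fin n) (IntermediateField.adjoin k {t}) K) (r' : Fin n → ℕ),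
      (∀ j, b' j ∈ LE k (fun v : DV k K => (r' j : ℤ) * pol k t v)) → ∑ j, r j ≤ ∑ j, r' j)
    (z : K) (hz : ∀ v : DV k K, 0 ≤ v.ord t → ge v 0 z) (j1 : Fin n) (v1 : DV k K)
    (hv1 : 0 ≤ v1.ord t) :
    ge v1 0 (algebraMap (IntermediateField.adjoin k {t}) K (b.repr z j1)) := by
  classical
  by_contra hcon
  have hcon' : (b.repr z j1 : K) ≠ 0 ∧ v1.ord (b.repr z j1 : K) < 0 := by
    constructor
    · intro h
      exact hcon (Or.inl h)
    · by_contra h
      push Not at h
      exact hcon (Or.inr h)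
  obtain ⟨c, hc⟩ := (rat k K htr v1).2 t hv1
  obtain ⟨u, hu⟩ : ∃ u, u = t - algebraMap k K c := ⟨_, rfl⟩
  rw [← hu] at hc
  have hut : Transcendental k u := by
    intro h
    apply ht
    have : t = u + algebraMap k K c := by rw [hu]; ring
    rw [this]
    exact h.add (isAlgebraic_algebraMap c)
  have hu0 : u ≠ 0 := fun h => hut (h ▸ isAlgebraic_zero)
  have huv1 : 0 < v1.ord u := by
    have := hc.resolve_left hu0
    omega
  have hle : IntermediateField.adjoin k {t} ≤ IntermediateField.adjoin k {u} := by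
    rw [IntermediateField.adjoin_simple_le_iff]
    have : t = u + algebraMap k K c := by rw [hu]; ring
    rw [this]
    exact add_mem (IntermediateField.mem_adjoin_simple_self k u)
      (IntermediateField.algebraMap_mem _ c)
  obtain ⟨m, a, hm, ha, hl⟩ := lead htr u hut (fun j => (b.repr z j : K))
    (fun j => hle (b.repr z j).2) j1 v1 huv1 hcon'.1 hcon'.2
  obtain ⟨j2, hj2⟩ := ha
  obtain ⟨j0, hj0, hmax⟩ := Finset.exists_max_image (Finset.univ.filter fun j => a j ≠ 0) r
    ⟨j2, by simp [hj2]⟩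
  have ha0 : a j0 ≠ 0 := (Finset.mem_filter.1 hj0).2
  obtain ⟨uF, huF⟩ : ∃ uF : IntermediateField.adjoin k {t}, (uF : K) = u :=
    ⟨⟨t, IntermediateField.mem_adjoin_simple_self k t⟩ - algebraMap k _ c, by rw [hu]; rfl⟩
  have huF0 : uF ≠ 0 := fun h => hu0 (by rw [← huF, h]; rfl)
  obtain ⟨g, hg⟩ : ∃ g : Fin n → IntermediateField.adjoin k {t}, ∀ j, g j =
    algebraMap k _ (a j) * uF⁻¹ := ⟨_, fun _ => rfl⟩
  have hgK : ∀ j, (g j : K) = algebraMap k K (a j) * u⁻¹ := fun j => by
    rw [hg]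
    push_cast
    rw [huF]
  have hzs : z = ∑ j, (b.repr z j : K) * b j := by
    conv_lhs => rw [← b.sum_repr z]
    refine Finset.sum_congr rfl fun j _ => ?_
    rw [IntermediateField.smul_def, smul_eq_mul]
  refine exch b r htr ht hb hmin g j0 ?_ ?_
  · rw [hg]
    exact mul_ne_zero ((map_ne_zero _).2 ha0) (inv_ne_zero huF0)
  · rw [mem_LE_iff]
    refine ⟨fun v hv => ?_, fun v hv => ?_⟩
    · have hou : 0 ≤ v.ord u := by
        rw [hu]
        exact v.ord_sub_nonneg hv (by rw [v.ord_base])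
      rcases hou.eq_or_lt with h0 | hpos
      · refine ge_sum v _ _ 0 fun j _ => ?_
        rw [IntermediateField.smul_def, smul_eq_mul, hgK]
        have h1 : ge v 0 u⁻¹ := ge_inv.mono (by omega)
        have h2 := ((ge_const v (a j)).mul h1).mul (((mem_LE_iff _ _ _).1 (hb j)).1 v hv)
        simpa using h2
      · have e : ∑ j, g j • b j = (z * u ^ m -
            ∑ j, ((b.repr z j : K) * u ^ m - algebraMap k K (a j)) * b j) * u⁻¹ := by
          have e1 : z * u ^ m = ∑ j, (b.repr z j : K) * b j * u ^ m := by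
            rw [← Finset.sum_mul, ← hzs]
          rw [e1, ← Finset.sum_sub_distrib, Finset.sum_mul]
          refine Finset.sum_congr rfl fun j _ => ?_
          rw [IntermediateField.smul_def, smul_eq_mul, hgK]
          ring
        rw [e]
        have h1 : ge v (v.ord u) (z * u ^ m) := by
          have h2 := (hz v hv).mul (ge_pow (ge_of_ord v (x := u)) m)
          refine h2.mono ?_
          have h3 : (1 : ℤ) ≤ m := by exact_mod_cast hm
          nlinarith
        have h2 : ge v (v.ord u)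
            (∑ j, ((b.repr z j : K) * u ^ m - algebraMap k K (a j)) * b j) := by
          refine ge_sum v _ _ _ fun j _ => ?_
          have h3 := (hl v hpos j).mul (((mem_LE_iff _ _ _).1 (hb j)).1 v hv)
          rwa [add_zero] at h3
        have h3 := (h1.sub h2).mul (ge_inv (v := v) (x := u))
        rwa [add_neg_cancel] at h3
    · refine ge_sum v _ _ _ fun j _ => ?_
      rw [IntermediateField.smul_def, smul_eq_mul, hgK]
      by_cases h : a j = 0
      · rw [h, map_zero, zero_mul, zero_mul]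
        exact ge_zero v _
      · have hle : r j ≤ r j0 := hmax j (by simp [h])
        have hou : v.ord u = v.ord t := by
          rw [hu, sub_eq_add_neg, (v.ord_add_eq_left (y := -algebraMap k K c) ?_ ?_).2]
          · exact fun h => ht (h ▸ isAlgebraic_zero)
          · intro _
            rw [v.ord_neg, v.ord_base]
            exact hv
        have h1 : ge v (-(v.ord t)) u⁻¹ := by
          rw [← hou]
          exact ge_inv
        have h2 := ((ge_const v (a j)).mul h1).mul (((mem_LE_iff _ _ _).1 (hb j)).2 v hv)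
        refine h2.mono ?_
        have h3 : (r j : ℤ) ≤ r j0 := by exact_mod_cast hle
        nlinarith

/-- CLAIM 3 -/
lemma c3 [IsAlgClosed k] [CharZero k] [Algebra.EssFiniteType k K]
    (htr : Algebra.trdeg k K = 1) (ht : Transcendental k t)
    (hb : ∀ j, b j ∈ LE k (fun v : DV k K => (r j : ℤ) * pol k t v))
    (hmin : ∀ (b' : Module.Basis (Fin n) (IntermediateField.adjoin k {t}) K) (r' : Fin n → ℕ),
      (∀ j, b' j ∈ LE k (fun v : DV k K => (r' j : ℤ) * pol k t v)) → ∑ j, r j ≤ ∑ j, r' j)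
    (z : K) (hz : ∀ v : DV k K, v.ord t < 0 → ge v 0 z) (j1 : Fin n) (v1 : DV k K)
    (hv1 : v1.ord t < 0) :
    ge v1 0 (algebraMap (IntermediateField.adjoin k {t}) K (b.repr z j1) * t ^ r j1) := by
  classical
  by_contra hcon
  have ht0 : t ≠ 0 := fun h => ht (h ▸ isAlgebraic_zero)
  have hcon' : (b.repr z j1 : K) * t ^ r j1 ≠ 0 ∧ v1.ord ((b.repr z j1 : K) * t ^ r j1) < 0 := by
    constructor
    · intro h
      exact hcon (Or.inl h)
    · by_contra h
      push Not at h
      exact hcon (Or.inr h)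
  have hut : Transcendental k t⁻¹ := by
    intro h
    exact ht (by simpa using h.inv)
  have hinv : ∀ v : DV k K, v.ord t⁻¹ = -(v.ord t) := fun v => by
    have := v.ord_zpow t (-1)
    rw [zpow_neg_one] at this
    omega
  have hle : IntermediateField.adjoin k {t} ≤ IntermediateField.adjoin k {t⁻¹} := by
    rw [IntermediateField.adjoin_simple_le_iff]
    have := inv_mem (IntermediateField.mem_adjoin_simple_self k t⁻¹)
    rwa [inv_inv] at this
  have hmem : ∀ j, (b.repr z j : K) * t ^ r j ∈ IntermediateField.adjoin k {t⁻¹} := fun j =>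
    hle (mul_mem (b.repr z j).2 (pow_mem (IntermediateField.mem_adjoin_simple_self k t) _))
  obtain ⟨m, a, hm, ha, hl⟩ := lead htr t⁻¹ hut (fun j => (b.repr z j : K) * t ^ r j)
    hmem j1 v1 (by rw [hinv]; omega) hcon'.1 hcon'.2
  refine c1 b r htr ht hb hmin a ha fun v hv => ?_
  have hzs : z = ∑ j, (b.repr z j : K) * b j := by
    conv_lhs => rw [← b.sum_repr z]
    refine Finset.sum_congr rfl fun j _ => ?_
    rw [IntermediateField.smul_def, smul_eq_mul]
  have e : ∑ j, algebraMap k K (a j) * (b j * (t ^ r j)⁻¹) = z * t⁻¹ ^ m -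
      ∑ j, ((b.repr z j : K) * t ^ r j * t⁻¹ ^ m - algebraMap k K (a j)) *
        (b j * (t ^ r j)⁻¹) := by
    have e1 : z * t⁻¹ ^ m = ∑ j, (b.repr z j : K) * b j * t⁻¹ ^ m := by
      rw [← Finset.sum_mul, ← hzs]
    rw [e1, ← Finset.sum_sub_distrib]
    refine Finset.sum_congr rfl fun j _ => ?_
    have h1 : t ^ r j * (t ^ r j)⁻¹ = 1 := mul_inv_cancel₀ (pow_ne_zero _ ht0)
    linear_combination ((b.repr z j : K) * t⁻¹ ^ m * b j) * h1
  have hpos : 0 < v.ord t⁻¹ := by rw [hinv]; omega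
  have h1 : ge v (-(v.ord t)) (z * t⁻¹ ^ m) := by
    have h2 := (hz v hv).mul (ge_pow (ge_of_ord v (x := t⁻¹)) m)
    refine h2.mono ?_
    rw [hinv]
    have h3 : (1 : ℤ) ≤ m := by exact_mod_cast hm
    nlinarith
  rw [e]
  refine h1.sub (ge_sum v _ _ _ fun j _ => ?_)
  have h2 := hl v hpos j
  rw [hinv] at h2
  have h3 : ge v (-(r j * v.ord t)) (t ^ r j)⁻¹ := by
    have := ge_inv (v := v) (x := t ^ r j)
    rwa [v.ord_pow] at this
  have h4 := (((mem_LE_iff _ _ _).1 (hb j)).2 v hv).mul h3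
  have h5 := h2.mul h4
  refine h5.mono (le_of_eq ?_)
  ring

end Min

/-- the initial basis -/
lemma init [IsAlgClosed k] [CharZero k] [Algebra.EssFiniteType k K]
    (htr : Algebra.trdeg k K = 1) (t : K) (ht : Transcendental k t) :
    ∃ (n : ℕ) (b : Module.Basis (Fin n) (IntermediateField.adjoin k {t}) K) (r : Fin n → ℕ),
      ∀ j, b j ∈ LE k (fun v : DV k K => (r j : ℤ) * pol k t v) := by
  classical
  have hfd := Pool.Agent.H36.SC.fin_of_transc htr ht
  obtain ⟨h5a, -, -⟩ := Pool.Agent.H76.KN.v5 k K t ht hfd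
  obtain ⟨n, hn⟩ : ∃ n, n = Module.finrank (IntermediateField.adjoin k {t}) K := ⟨_, rfl⟩
  obtain ⟨b⟩ : Nonempty (Module.Basis (Fin n) (IntermediateField.adjoin k {t}) K) := by
    rw [hn]
    exact ⟨Module.finBasis _ _⟩
  have hb0 : ∀ j, b j ≠ 0 := fun j => b.ne_zero j
  have hSfin : {v : DV k K | ∃ j, v.ord (b j) ≠ 0}.Finite := by
    have h1 : {v : DV k K | ∃ j, v.ord (b j) ≠ 0} = ⋃ j, {v : DV k K | v.ord (b j) ≠ 0} := by
      ext v
      simp
    rw [h1]
    exact Set.finite_iUnion fun j => (pfm k K htr (b j)).1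
  have hc : ∀ v : DV k K, ∃ c : k, 0 ≤ v.ord t → ge v 1 (t - algebraMap k K c) := by
    intro v
    by_cases h : 0 ≤ v.ord t
    · obtain ⟨c, hc⟩ := (rat k K htr v).2 t h
      exact ⟨c, fun _ => hc⟩
    · exact ⟨0, fun h' => absurd h' h⟩
  choose c hc using hc
  have hne : ∀ c : k, t - algebraMap k K c ≠ 0 := by
    intro c h
    apply ht
    rw [sub_eq_zero.1 h]
    exact isAlgebraic_algebraMap c
  have key : ∀ j, ∃ N : ℕ, ∀ v ∈ hSfin.toFinset, (-(v.ord (b j))).toNat ≤ N := fun j =>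
    ⟨∑ v ∈ hSfin.toFinset, (-(v.ord (b j))).toNat, fun v hv =>
      Finset.single_le_sum (f := fun v : DV k K => (-(v.ord (b j))).toNat)
        (fun _ _ => Nat.zero_le _) hv⟩
  choose N hN using key
  obtain ⟨tF, htF⟩ : ∃ tF : IntermediateField.adjoin k {t}, (tF : K) = t :=
    ⟨⟨t, IntermediateField.mem_adjoin_simple_self k t⟩, rfl⟩
  obtain ⟨p, hp⟩ : ∃ p : Fin n → IntermediateField.adjoin k {t}, ∀ j, p j =
    ∏ v ∈ hSfin.toFinset, (tF - algebraMap k _ (c v)) ^ N j := ⟨_, fun _ => rfl⟩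
  have hpK : ∀ j, (p j : K) = ∏ v ∈ hSfin.toFinset, (t - algebraMap k K (c v)) ^ N j := fun j => by
    rw [hp]
    push_cast
    refine Finset.prod_congr rfl fun v _ => ?_
    rw [htF]
  have hpK0 : ∀ j, (p j : K) ≠ 0 := fun j => by
    rw [hpK]
    exact Finset.prod_ne_zero_iff.2 fun v _ => pow_ne_zero _ (hne _)
  have hp0 : ∀ j, p j ≠ 0 := fun j h => hpK0 j (by rw [h]; rfl)
  have hpord : ∀ (j) (v : DV k K), v.ord (p j : K) =
      ∑ w ∈ hSfin.toFinset, N j * v.ord (t - algebraMap k K (c w)) := by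
    intro j v
    rw [hpK, v.ord_prod _ _ fun w _ => pow_ne_zero _ (hne _)]
    refine Finset.sum_congr rfl fun w _ => ?_
    rw [v.ord_pow]
  have htnn : ∀ (v : DV k K) (c : k), 0 ≤ v.ord t → 0 ≤ v.ord (t - algebraMap k K c) := by
    intro v c h
    exact v.ord_sub_nonneg h (by rw [v.ord_base])
  have hfin : ∀ (j) (v : DV k K), 0 ≤ v.ord t → 0 ≤ v.ord ((p j : K) * b j) := by
    intro j v h
    rw [v.ord_mul' (hpK0 j) (hb0 j), hpord]
    by_cases hv : v ∈ hSfin.toFinset
    · have h1 : (N j : ℤ) ≤ N j * v.ord (t - algebraMap k K (c v)) := by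
        have h2 : 1 ≤ v.ord (t - algebraMap k K (c v)) := (hc v h).resolve_left (hne _)
        nlinarith [(Nat.cast_nonneg (N j) : (0 : ℤ) ≤ N j)]
      have h3 := h1.trans (Finset.single_le_sum
        (f := fun w => (N j : ℤ) * v.ord (t - algebraMap k K (c w)))
        (fun w _ => mul_nonneg (by positivity) (htnn v _ h)) hv)
      have h4 := hN j v hv
      omega
    · have h1 : 0 ≤ ∑ w ∈ hSfin.toFinset, (N j : ℤ) * v.ord (t - algebraMap k K (c w)) :=
        Finset.sum_nonneg fun w _ => mul_nonneg (by positivity) (htnn v _ h)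
      have h2 : v.ord (b j) = 0 := by
        by_contra h3
        exact hv (hSfin.mem_toFinset.2 ⟨j, h3⟩)
      omega
  obtain ⟨b', hb'⟩ : ∃ b' : Module.Basis (Fin n) (IntermediateField.adjoin k {t}) K,
      ∀ j, b' j = (p j : K) * b j :=
    ⟨b.isUnitSMul (w := p) fun j => (hp0 j).isUnit, fun j => by
      rw [Module.Basis.isUnitSMul_apply, IntermediateField.smul_def, smul_eq_mul]⟩
  refine ⟨n, b', fun j => ∑ v ∈ h5a.toFinset, (-(v.ord (b' j))).toNat, fun j => ?_⟩
  rw [mem_LE_iff]
  refine ⟨fun v hv => Or.inr (by rw [hb']; exact hfin j v hv), fun v hv => Or.inr ?_⟩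
  have h1 : (-(v.ord (b' j))).toNat ≤ ∑ v ∈ h5a.toFinset, (-(v.ord (b' j))).toNat :=
    Finset.single_le_sum (f := fun v : DV k K => (-(v.ord (b' j))).toNat)
      (fun _ _ => Nat.zero_le _) (h5a.mem_toFinset.2 hv)
  have h2 : -(v.ord (b' j)) ≤ ((∑ v ∈ h5a.toFinset, (-(v.ord (b' j))).toNat : ℕ) : ℤ) := by
    omega
  have h3 : (0 : ℤ) ≤ ((∑ v ∈ h5a.toFinset, (-(v.ord (b' j))).toNat : ℕ) : ℤ) := by positivity
  nlinarith

end BAD

theorem pf_BAD (_hRTF : T_RTF) : T_BAD := by
  intro k K _ _ _ _ _ _ htr t F ht hF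
  subst hF
  classical
  have hex : ∃ s : ℕ, ∃ (n : ℕ) (b : Module.Basis (Fin n) (IntermediateField.adjoin k {t}) K)
      (r : Fin n → ℕ), (∀ j, b j ∈ LE k (fun v : DV k K => (r j : ℤ) * pol k t v)) ∧
      ∑ j, r j = s := by
    obtain ⟨n, b, r, h⟩ := BAD.init htr t ht
    exact ⟨_, n, b, r, h, rfl⟩
  obtain ⟨n, b, r, hb, hs⟩ := Nat.find_spec hex
  have hmin : ∀ (b' : Module.Basis (Fin n) (IntermediateField.adjoin k {t}) K) (r' : Fin n → ℕ),
      (∀ j, b' j ∈ LE k (fun v : DV k K => (r' j : ℤ) * pol k t v)) →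
      ∑ j, r j ≤ ∑ j, r' j := fun b' r' h => by
    rw [hs]
    exact Nat.find_min' hex ⟨n, b', r', h, rfl⟩
  exact ⟨n, b, r, hb, fun z hz j v hv => BAD.c2 b r htr ht hb hmin z hz j v hv,
    fun z hz j v hv => BAD.c3 b r htr ht hb hmin z hz j v hv⟩

end Pool.Agent.H70.SL
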